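import Pool.Agent.Helper11.SY.Df

/-!
MP_e1889a_ag: cones of dimension 4 and the degeneration of a symplectic germ: definitions.
`X₀ = Spec R₀`, where `R₀` is a subalgebra of its fraction field `K`.
-/

set_option autoImplicit false

namespace Pool.Agent.Helper88.D4S

open Module Filter Topology IsLocalRing Pool.Agent.Helper11.SY

/-- A real valuation of `K`, trivial on `ℂ` (the value at `0` plays no role). -/
structure RVal (K : Type) [Field K] [Algebra ℂ K] where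
  val : K → ℝ
  map_mul : ∀ x y, x ≠ 0 → y ≠ 0 → val (x * y) = val x + val y
  map_add : ∀ x y, x ≠ 0 → y ≠ 0 → x + y ≠ 0 → min (val x) (val y) ≤ val (x + y)
  map_const : ∀ z : ℂ, z ≠ 0 → val (algebraMap ℂ K z) = 0

/-- A bracket of four functions: `[x, y, z, t] = J y z t x`, a derivation in `x`. -/
abbrev Bra (K : Type) [Field K] [Algebra ℂ K] : Type := K → K → K → Derivation ℂ K K

section

variable {K : Type} [Field K] [Algebra ℂ K]

/-- `x` has value at least `c` (or is zero). -/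
def RVal.Ge (v : RVal K) (c : ℝ) (x : K) : Prop := x = 0 ∨ c ≤ v.val x

/-- The span of the homogeneous elements of `R₀` of degree at least `c`. -/
def Deg (R₀ : Subalgebra ℂ K) (ξ : Derivation ℂ K K) (c : ℝ) : Submodule ℂ K :=
  Submodule.span ℂ {y | y ∈ R₀ ∧ ∃ b : ℝ, c ≤ b ∧ ξ y = (b : ℂ) • y}

/-- `u` is the valuation of a prime divisor of `X₀`. -/
structure PDiv (R₀ : Subalgebra ℂ K) (u : RVal K) : Prop where
  int : ∀ x, x ≠ 0 → ∃ n : ℤ, u.val x = n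
  nonneg : ∀ x ∈ R₀, x ≠ 0 → 0 ≤ u.val x
  unif : ∃ p ∈ R₀, p ≠ 0 ∧ u.val p = 1
  loc : ∀ x, x ≠ 0 → 0 ≤ u.val x → ∃ s ∈ R₀, s ≠ 0 ∧ u.val s = 0 ∧ s * x ∈ R₀

/-- `X₀` is a normal cone of dimension 4 with Reeb field `ξ` (which is diagonalizable on `R₀` with real
eigenvalues `≥ 0` and only the constants in degree `0`), and the alternating bracket `J`, which is
homogeneous of degree `- a` and generates the brackets of `X₀` in codimension 1, is the dual of a nowhere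
vanishing volume form of weight `a`. -/
structure Cone4 (R₀ : Subalgebra ℂ K) (ξ : Derivation ℂ K K) (J : Bra K) (a : ℝ) : Prop where
  frac : ∀ x : K, ∃ p ∈ R₀, ∃ q ∈ R₀, q ≠ 0 ∧ x = p / q
  fg : R₀.FG
  span : ∀ x ∈ R₀, x ∈ Deg R₀ ξ 0
  const : ∀ x ∈ R₀, ξ x = 0 → ∃ z : ℂ, x = algebraMap ℂ K z
  trdeg : Algebra.trdeg ℂ K = 4
  normal : ∀ x : K, IsIntegral R₀ x → x ∈ R₀
  alt1 : ∀ x y z t, J x z t y = -J y z t x
  alt2 : ∀ y z t, J z y t = -J y z t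
  alt3 : ∀ y z t, J y t z = -J y z t
  ne : ∃ x y z t, J y z t x ≠ 0
  reg : ∀ x ∈ R₀, ∀ y ∈ R₀, ∀ z ∈ R₀, ∀ t ∈ R₀, J y z t x ∈ R₀
  hom : ∀ x y z t, ξ (J y z t x) = J y z t (ξ x) + J (ξ y) z t x + J y (ξ z) t x + J y z (ξ t) x -
    (a : ℂ) • J y z t x
  gen : ∀ u, PDiv R₀ u → ∃ x ∈ R₀, ∃ y ∈ R₀, ∃ z ∈ R₀, ∃ t ∈ R₀, J y z t x ≠ 0 ∧
    u.val (J y z t x) = 0

/-- The log discrepancy of `u` is at most `c`. -/
def LDLe (J : Bra K) (u : RVal K) (c : ℝ) : Prop := ∀ x y z t : K, x ≠ 0 → y ≠ 0 → z ≠ 0 → t ≠ 0 →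
  u.Ge (u.val x + u.val y + u.val z + u.val t - c) (J y z t x)

/-- `dim R₀ / {u ≥ m}` -/
noncomputable def col (R₀ : Subalgebra ℂ K) (u : RVal K) (m : ℕ) : ℕ :=
  finrank ℂ (R₀ ⧸ Submodule.span ℂ {x : R₀ | u.Ge m (x : K)})

/-- `v = wt ξ`, of volume `V` and log discrepancy `a`, minimizes the normalized volume at the vertex of
the cone, whose log discrepancies are positive. -/
structure IsMinF (R₀ : Subalgebra ℂ K) (ξ : Derivation ℂ K K) (J : Bra K) (v : RVal K) (a V : ℝ) :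
    Prop where
  wt : ∀ x ∈ R₀, x ≠ 0 → ∀ c : ℝ, (c ≤ v.val x ↔ x ∈ Deg R₀ ξ c)
  vol : Tendsto (fun m : ℕ => 24 * (col R₀ v m : ℝ) / (m : ℝ) ^ 4) atTop (𝓝 V)
  apos : 0 < a
  vpos : 0 < V
  min : ∀ (u : RVal K) (c U : ℝ), (∀ x ∈ R₀, x ≠ 0 → 0 < v.val x → 0 < u.val x) → LDLe J u c →
    (∀ ε : ℝ, 0 < ε → ∃ᶠ m : ℕ in atTop, 24 * (col R₀ u m : ℝ) ≤ (U + ε) * (m : ℝ) ^ 4) →
      0 < c ∧ a ^ 4 * V ≤ c ^ 4 * U

/-- A multiple of each prime divisor is principal. -/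
def QFac (R₀ : Subalgebra ℂ K) : Prop := ∀ u, PDiv R₀ u → ∃ F ∈ R₀, F ≠ 0 ∧ 0 < u.val F ∧
  ∀ u', PDiv R₀ u' → 0 < u'.val F → ∀ x, x ≠ 0 → u'.val x = u.val x

/-- The valuations `u` and `w` are different. -/
def Dist (u w : RVal K) : Prop := ∃ y, y ≠ 0 ∧ u.val y ≠ w.val y

/-- `x` is a section of `O(∑ n i • D i)`, where `D i` is the prime divisor with valuation `u i`. -/
def Sec (R₀ : Subalgebra ℂ K) {p : ℕ} (u : Fin p → RVal K) (n : Fin p → ℤ) (x : K) : Prop :=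
  (∀ i, (u i).Ge (-(n i : ℝ)) x) ∧ ∀ w, PDiv R₀ w → (∀ i, Dist w (u i)) → w.Ge 0 x

/-- For prime divisors `D i` the algebra `⊕ n, H⁰(O(∑ n i • D i))` is finitely generated: all sections
are combinations of monomials in finitely many sections `x l` of `O(∑ m l i • D i)`. -/
def CoxFG (R₀ : Subalgebra ℂ K) : Prop := ∀ (p : ℕ) (u : Fin p → RVal K), (∀ i, PDiv R₀ (u i)) →
  (∀ i j, i ≠ j → Dist (u i) (u j)) → ∃ (N : ℕ) (x : Fin N → K) (m : Fin N → Fin p → ℤ),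
    (∀ l, Sec R₀ u (m l) (x l)) ∧ ∀ (n : Fin p → ℤ) (y : K), Sec R₀ u n y →
      y ∈ Submodule.span ℂ {z | ∃ a : Fin N → ℕ, (∀ i, ∑ l, (a l : ℤ) * m l i = n i) ∧
        z = ∏ l, x l ^ a l}

end

section

variable {R : Type} [CommRing R] [Algebra ℂ R] [IsLocalRing R] {K : Type} [Field K] [Algebra ℂ K]

/-- `R₀` is the graded ring `gr_w R` of the germ; its elements of degree `c` are the elements `y` with
`ξ y = c y`.  For `w x ≥ c` the element `sym c x` is the class of `x` in degree `c`. -/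
structure GrL (w : CVal R) (R₀ : Subalgebra ℂ K) (ξ : Derivation ℂ K K) (sym : ℝ → R → K) :
    Prop where
  add : ∀ (c : ℝ) x y, (c : WithTop ℝ) ≤ w.v x → (c : WithTop ℝ) ≤ w.v y →
    sym c (x + y) = sym c x + sym c y
  mul : ∀ (b c : ℝ) x y, (b : WithTop ℝ) ≤ w.v x → (c : WithTop ℝ) ≤ w.v y →
    sym (b + c) (x * y) = sym b x * sym c y
  const : ∀ z : ℂ, sym 0 (algebraMap ℂ R z) = algebraMap ℂ K z
  zero_iff : ∀ (c : ℝ) x, (c : WithTop ℝ) ≤ w.v x → (sym c x = 0 ↔ (c : WithTop ℝ) < w.v x)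
  mem : ∀ (c : ℝ) x, (c : WithTop ℝ) ≤ w.v x → sym c x ∈ R₀ ∧ ξ (sym c x) = (c : ℂ) • sym c x
  surj : ∀ (c : ℝ), ∀ y ∈ R₀, ξ y = (c : ℂ) • y → ∃ x, (c : WithTop ℝ) ≤ w.v x ∧ sym c x = y

/-- `J` is the leading term of the 4-vector field `th` dual to `ω² / 2`, whose degree is `- A`. -/
def LeadTh (S : Symp R 2) (w : CVal R) (A : ℝ) (sym : ℝ → R → K) (J : Bra K) : Prop :=
  ∀ (F : Fin 4 → R) (c : Fin 4 → ℝ), (∀ i, (c i : WithTop ℝ) ≤ w.v (F i)) →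
    J (sym (c 1) (F 1)) (sym (c 2) (F 2)) (sym (c 3) (F 3)) (sym (c 0) (F 0)) =
      sym (∑ i, c i - A) (S.th F)

end

end Pool.Agent.Helper88.D4S
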