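import Pool.Agent.Helper88.D4.GmClo7
import Pool.Agent.Helper88.D4S.Defs

/-!
MP_e1889a_ag: the theorem in dimension 4 for the definitions of `D4S.Defs`.
-/

set_option autoImplicit false

namespace Pool.Agent.Helper88.D4S

open Module Filter Topology IsLocalRing Pool.Agent.Helper11.SY

variable {K : Type} [Field K] [Algebra ℂ K]

/-- the two notions of valuation -/
def RVal.old (v : RVal K) : Pool.Agent.Helper37.SD.RVal K := ⟨v.val, v.map_mul, v.map_add, v.map_const⟩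

def new (v : Pool.Agent.Helper37.SD.RVal K) : RVal K := ⟨v.val, v.map_mul, v.map_add, v.map_const⟩

theorem pdiv_old {R₀ : Subalgebra ℂ K} {u : RVal K} (h : PDiv R₀ u) :
    Pool.Agent.Helper88.D4.PDiv R₀ u.old := ⟨h.int, h.nonneg, h.unif, h.loc⟩

theorem pdiv_new {R₀ : Subalgebra ℂ K} {u : Pool.Agent.Helper37.SD.RVal K}
    (h : Pool.Agent.Helper88.D4.PDiv R₀ u) : PDiv R₀ (new u) := ⟨h.int, h.nonneg, h.unif, h.loc⟩

theorem cone_old {R₀ : Subalgebra ℂ K} {ξ : Derivation ℂ K K} {J : Bra K} {a : ℝ}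
    (h : Cone4 R₀ ξ J a) : Pool.Agent.Helper88.D4.Cone4 R₀ ξ J a where
  frac := h.frac
  fg := h.fg
  span := h.span
  const := h.const
  trdeg := h.trdeg
  normal := h.normal
  alt := ⟨h.alt1, h.alt2, h.alt3, h.ne⟩
  reg := h.reg
  hom := h.hom
  gen := fun u hu => h.gen (new u) (pdiv_new hu)

theorem col_old (R₀ : Subalgebra ℂ K) (u : Pool.Agent.Helper37.SD.RVal K) (m : ℕ) :
    col R₀ (new u) m = finrank ℂ (R₀ ⧸ Pool.Agent.Helper37.SD.idl R₀ u m) := by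
  have h : Submodule.span ℂ {x : R₀ | (new u).Ge m (x : K)} = Pool.Agent.Helper37.SD.idl R₀ u m :=
    le_antisymm (Submodule.span_le.2 fun x hx => hx) fun x hx => Submodule.subset_span hx
  rw [col, h]

theorem min_old {R₀ : Subalgebra ℂ K} {ξ : Derivation ℂ K K} {J : Bra K} {v : RVal K} {a V : ℝ}
    (h : IsMinF R₀ ξ J v a V) : Pool.Agent.Helper88.D4.IsMinF R₀ ξ J v.old a V where
  wt := h.wt
  vol := by
    have h1 := h.vol
    have h2 : (fun m : ℕ => 24 * (col R₀ v m : ℝ) / (m : ℝ) ^ 4) = fun m : ℕ =>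
        ((2 * 2).factorial : ℝ) * (finrank ℂ (R₀ ⧸ Pool.Agent.Helper37.SD.idl R₀ v.old m) : ℝ) /
          (m : ℝ) ^ (2 * 2) := by
      funext m
      have h3 : ((2 * 2).factorial : ℝ) = 24 := by norm_num [Nat.factorial]
      rw [h3, ← col_old R₀ v.old m]
      rfl
    rw [h2] at h1
    exact h1
  apos := h.apos
  vpos := h.vpos
  min := fun u c U hu hc hU => h.min (new u) c U hu hc fun ε hε => by
    have h1 := hU ε hε
    simp only [← col_old] at h1
    exact h1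

theorem qfac_old {R₀ : Subalgebra ℂ K} (h : QFac R₀) : Pool.Agent.Helper88.D4.QFac R₀ := by
  intro u hu
  obtain ⟨F, hF, hF0, hpos, hall⟩ := h (new u) (pdiv_new hu)
  exact ⟨F, hF, hF0, hpos, fun u' hu' => hall (new u') (pdiv_new hu')⟩

theorem sec_old {R₀ : Subalgebra ℂ K} {p : ℕ} {u : Fin p → Pool.Agent.Helper37.SD.RVal K}
    {n : Fin p → ℤ} {x : K} : Sec R₀ (fun i => new (u i)) n x ↔
      x ∈ Pool.Agent.Helper88.D4.Sd R₀ u n :=
  ⟨fun h => ⟨h.1, fun w hw hd => h.2 (new w) (pdiv_new hw) hd⟩,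
    fun h => ⟨h.1, fun w hw hd => h.2 w.old (pdiv_old hw) hd⟩⟩

theorem cox_old {R₀ : Subalgebra ℂ K} (h : CoxFG R₀) : Pool.Agent.Helper88.D4.CoxFG R₀ := by
  intro p u hu hd
  obtain ⟨N, x, m, h1, h2⟩ := h p (fun i => new (u i)) (fun i => pdiv_new (hu i)) hd
  exact ⟨N, x, m, fun l => sec_old.1 (h1 l), fun n y hy => h2 n y (sec_old.2 hy)⟩

theorem main (R : Type) [CommRing R] [Algebra ℂ R] [IsDomain R] [IsLocalRing R]
    [IsNoetherianRing R] [IsAdicComplete (maximalIdeal R) R]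
    (hres : ∀ f : R, ∃ c : ℂ, f - algebraMap ℂ R c ∈ maximalIdeal R)
    (hdim : ringKrullDim R = 4)
    (S : Symp R 2) (w : CVal R) (A : ℝ) (hw : IsMinimizer S w A)
    (K : Type) [Field K] [Algebra ℂ K] (R₀ : Subalgebra ℂ K) (ξ : Derivation ℂ K K)
    (sym : ℝ → R → K) (hgr : GrL w R₀ ξ sym)
    (J : Bra K) (hJ : LeadTh S w A sym J) (hcone : Cone4 R₀ ξ J A)
    (v₀ : RVal K) (V : ℝ) (hmin : IsMinF R₀ ξ J v₀ A V)
    (hX₀ : QFac R₀ ∨ CoxFG R₀) :
    OrderGe S w (A / 2) :=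
  Pool.Agent.Helper88.D4.germ_dimension_four7 R hres hdim S w A hw K R₀ ξ sym
    ⟨hgr.add, hgr.mul, hgr.const, hgr.zero_iff, hgr.mem, hgr.surj⟩ J (fun F c hc => hJ F c hc)
    (cone_old hcone) v₀.old V (min_old hmin) (hX₀.imp qfac_old cox_old)

end Pool.Agent.Helper88.D4S
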